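import Pool.Agent.E8helper28.GB.X5
import Pool.Agent.E8helper77.GB.Rec
import Pool.Agent.E8helper64.GB.Rel
import Pool.Agent.E8helper66.GB.Quad
import Pool.Agent.E8helper23.GB.Core
import Pool.Agent.E8helper64.GB.Pig
import Pool.Agent.E8helper62.GB.CS
import Pool.Agent.E8helper97.GB.CST
import Pool.Agent.E8helper75.GB.Tii
import Pool.Agent.E8helper97.GB.TI2
import Pool.Agent.E8helper77.GB.Lam
import Pool.Agent.E8helper70.GB.LZ
import Pool.Agent.E8helper66.GB.U3
import Pool.Agent.E8helper81.GB.Est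
import Pool.Agent.E8helper54.GB.Loc
import Pool.Agent.E8helper98.GB.Two
import Pool.Agent.E8helper64.GB.Est3
import Pool.Agent.E8helper77.GB.Loc3
import Pool.Agent.E8helper98.GB.Br
import Pool.Agent.E8helper66.GB.Estw
import Pool.Agent.R521.GG.H2
import Pool.Agent.R521.GG.Mert
import Pool.Agent.R521.GG.B
import Pool.Agent.R521.GG.Mom
import Pool.Agent.R521.GG.Codeg
import Pool.Agent.R521.GG.Wsum
import Pool.Agent.R906.GG.Gold
import Pool.Agent.R906.GG.Twin

set_option autoImplicit false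

/-!
# Project GB: the pieces put together (helper28)
-/

namespace Pool.Agent.E8helper28.GB

open Pool.Agent.E8helper66.GB

theorem u3 : S_U3 := by
  have tii : S_TII := Pool.Agent.E8helper75.GB.t_TII Pool.Agent.E8helper62.GB.t_CS
    (Pool.Agent.E8helper23.GB.t_CORE Pool.Agent.E8helper77.GB.t_REC
      (Pool.Agent.E8helper64.GB.t_REL Pool.Agent.E8helper77.GB.t_REC) t_QUAD)
    Pool.Agent.E8helper64.GB.t_PIG Pool.Agent.E8helper97.GB.t_CST
  have ti : S_TI := Pool.Agent.E8helper97.GB.t_TI Pool.Agent.E8helper64.GB.t_PIG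
  exact t_U3 (Pool.Agent.E8helper77.GB.t_LAM tii ti) (Pool.Agent.E8helper70.GB.t_LZ tii ti)

theorem five : S_FIVE := by
  have hW : S_ESTW := t_ESTW (Pool.Agent.E8helper81.GB.t_EST u3)
  exact t_FIVE (Pool.Agent.E8helper98.GB.t_TWO hW Pool.Agent.E8helper54.GB.t_LOC)
    (Pool.Agent.E8helper98.GB.t_BR hW (Pool.Agent.E8helper64.GB.t_EST3 u3) Pool.Agent.E8helper77.GB.t_LOC3)

theorem x5 : S_X5 := by
  refine x5_of five ?_
  obtain ⟨c, K, hc, -, h⟩ := R521.GG.main R521.GG.t_mom (R521.GG.t_codeg R521.GG.t_mert)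
    (R521.GG.t_wsum R521.GG.t_mert) R906.GGF.t_gold R906.GGG.t_twin R521.GG.t_peel
  refine ⟨c, hc, fun U => ?_⟩
  obtain ⟨n₀, h0⟩ := h U
  refine ⟨n₀, fun n hn => ?_⟩
  obtain ⟨X, h1, h2, h3, -⟩ := h0 n hn
  exact ⟨X, h1, h2, h3⟩

end Pool.Agent.E8helper28.GB
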