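import Pool.Agent.E8helper28.GB.Five
import Pool.Agent.R521.GG.Fin2

set_option autoImplicit false

/-!
# The exceptional vertices are attached by one almost prime (helper28)
-/

namespace Pool.Agent.E8helper28.GB

open Finset
open Pool.Agent.R521.GG (R dg R2 CD CS S_chenD S_chenS LL wt LL_large wt_one_le semi_of_length)
open Pool.Agent.E8helper66.GB (Same Path)

/-- few vertices outside a set of diameter five -/
def S_X5 : Prop := ∀ U : ℕ, ∃ n₀ : ℕ, ∀ n : ℕ, n₀ ≤ n → ∃ X ⊆ Icc 1 n,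
  ((Icc 1 n \ X).card : ℝ) ≤ n / Real.log n ^ U ∧ ∀ a ∈ X, ∀ c ∈ X, Path X 5 a c

theorem walk_of_path {V : Type} (G : SimpleGraph V) (X : Finset ℕ) (φ : ℕ → V)
    (hR : ∀ a b, (a ∈ X) → b ∈ X → R a b → G.Adj (φ a) (φ b)) :
    ∀ {r : ℕ} {a b : ℕ}, a ∈ X → Path X r a b → ∃ w : G.Walk (φ a) (φ b), w.length ≤ r := by
  intro r
  induction r with
  | zero =>
    intro a b _ h
    have h1 : a = b := h
    subst h1
    exact ⟨SimpleGraph.Walk.nil, le_rfl⟩
  | succ r ih =>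
    intro a b ha h
    rcases h with h | ⟨v, hv, h3, h4⟩
    · obtain ⟨w, hw⟩ := ih ha h
      exact ⟨w, by omega⟩
    · obtain ⟨w, hw⟩ := ih hv h4
      exact ⟨SimpleGraph.Walk.cons (hR a v ha hv h3) w, by
        rw [SimpleGraph.Walk.length_cons]
        omega⟩

theorem conn_seven {V : Type} (G : SimpleGraph V) (X : Finset ℕ) (φ : ℕ → V) (h : V → ℕ)
    (hφ : ∀ v, φ (h v) = v) (hne : X.Nonempty)
    (hp : ∀ a ∈ X, ∀ c ∈ X, Path X 5 a c)
    (hR : ∀ a b, a ∈ X → b ∈ X → R a b → G.Adj (φ a) (φ b))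
    (hatt : ∀ v, h v ∉ X → ∃ p ∈ X, G.Adj v (φ p)) :
    G.Connected ∧ ∀ u v, G.dist u v ≤ 7 := by
  have hfirst : ∀ v, ∃ p ∈ X, ∃ w : G.Walk v (φ p), w.length ≤ 1 := by
    intro v
    by_cases hv : h v ∈ X
    · refine ⟨h v, hv, ?_⟩
      rw [hφ]
      exact ⟨SimpleGraph.Walk.nil, by simp⟩
    · obtain ⟨p, hp, ha⟩ := hatt v hv
      exact ⟨p, hp, SimpleGraph.Walk.cons ha SimpleGraph.Walk.nil, by simp⟩
  have hall : ∀ u v, ∃ w : G.Walk u v, w.length ≤ 7 := by
    intro u v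
    obtain ⟨p, hp1, w1, hw1⟩ := hfirst u
    obtain ⟨q, hq1, w2, hw2⟩ := hfirst v
    obtain ⟨w3, hw3⟩ := walk_of_path G X φ hR hp1 (hp p hp1 q hq1)
    refine ⟨w1.append (w3.append w2.reverse), ?_⟩
    rw [SimpleGraph.Walk.length_append, SimpleGraph.Walk.length_append, SimpleGraph.Walk.length_reverse]
    omega
  obtain ⟨x, hx⟩ := hne
  have : Nonempty V := ⟨φ x⟩
  refine ⟨⟨fun u v => ?_⟩, fun u v => ?_⟩
  · obtain ⟨w, -⟩ := hall u v
    exact ⟨w⟩
  · obtain ⟨w, hw⟩ := hall u v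
    exact (SimpleGraph.dist_le w).trans hw

/-- many vertices of any set which is not too sparse lie in `X` -/
theorem meets {n : ℕ} {X S : Finset ℕ} (hS : S ⊆ Icc 1 n) (h : (Icc 1 n \ X).card < S.card) : ∃ p ∈ X, p ∈ S := by
  by_contra hcon
  push Not at hcon
  have h1 : S ⊆ Icc 1 n \ X := by
    intro p hp
    rw [mem_sdiff]
    exact ⟨hS hp, fun h => hcon p h hp⟩
  have h2 := card_le_card h1
  omega

open Classical in
theorem chen_attach (hX5 : S_X5) (hD : S_chenD) (hS : S_chenS) : ∀ U : ℕ, ∃ N : ℕ, ∀ n : ℕ, N ≤ n → ∃ X ⊆ Icc 1 n,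
    ((Icc 1 n \ X).card : ℝ) + 1 ≤ n / Real.log n ^ U ∧ X.Nonempty ∧ (∀ a ∈ X, ∀ c ∈ X, Path X 5 a c) ∧
    (∃ p ∈ X, p.Prime ∧ Odd p) ∧
    (∀ a ∈ Icc 1 n, ∃ b ∈ X, a ≠ b ∧ ((Nat.dist a b).Prime ∧ Odd (Nat.dist a b)) ∧
      (Odd (a + b) ∧ ((a + b).Prime ∨ ∃ p q : ℕ, p.Prime ∧ q.Prime ∧ a + b = p * q))) ∧
    (∀ a ∈ Icc 1 n, ∃ b ∈ X, a ≠ b ∧ ((a + b).Prime ∧ Odd (a + b)) ∧
      (Odd (Nat.dist a b) ∧ ((Nat.dist a b).Prime ∨ ∃ p q : ℕ, p.Prime ∧ q.Prime ∧ Nat.dist a b = p * q))) := by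
  intro U
  obtain ⟨t₁, ht₁, δ₁, hδ₁, m₁, hD⟩ := hD
  obtain ⟨t₂, ht₂, δ₂, hδ₂, m₂, hS⟩ := hS
  obtain ⟨m₀, hX⟩ := hX5 (max U 3 + 1)
  have hlog : Filter.Tendsto (fun n : ℕ => Real.log n) Filter.atTop Filter.atTop :=
    Real.tendsto_log_atTop.comp tendsto_natCast_atTop_atTop
  have ht : Filter.Tendsto (fun n : ℕ => Real.log n ^ (max U 3 + 1) / (n : ℝ)) Filter.atTop (nhds 0) := by
    have h3 := Real.isLittleO_pow_log_id_atTop (n := max U 3 + 1)
    exact h3.tendsto_div_nhds_zero.comp tendsto_natCast_atTop_atTop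
  obtain ⟨m₃, hm₃⟩ := Filter.eventually_atTop.1 ((hlog.eventually
    (Filter.eventually_ge_atTop (max 10 (max (2 / δ₁) (2 / δ₂))))).and
    (ht.eventually (gt_mem_nhds (show (0 : ℝ) < 1 / 4 by norm_num))))
  refine ⟨m₀ + m₁ + m₂ + m₃ + 10, fun n hn => ?_⟩
  obtain ⟨X, hXs, hXc, hXp⟩ := hX n (by omega)
  obtain ⟨hL, hnl⟩ := hm₃ n (by omega)
  set L := Real.log n with hLd
  have hL10 : 10 ≤ L := (le_max_left _ _).trans hL
  have hLd1 : 2 / δ₁ ≤ L := (le_max_left _ _).trans ((le_max_right _ _).trans hL)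
  have hLd2 : 2 / δ₂ ≤ L := (le_max_right _ _).trans ((le_max_right _ _).trans hL)
  have hn0 : (0 : ℝ) < n := by
    have : (10 : ℝ) ≤ n := by exact_mod_cast (show 10 ≤ n by omega)
    linarith
  have hL0 : 0 < L := by linarith
  set W := max U 3 + 1 with hW
  have hWU : U + 1 ≤ W := by
    have := le_max_left U 3
    omega
  have hW4 : 4 ≤ W := by
    have := le_max_right U 3
    omega
  have hpow : ∀ k l : ℕ, k ≤ l → L ^ k ≤ L ^ l := fun k l hkl => pow_le_pow_right₀ (by linarith) hkl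
  have h4 : 4 ≤ (n : ℝ) / L ^ W := by
    rw [le_div_iff₀ (by positivity)]
    rw [div_lt_div_iff₀ hn0 (by norm_num)] at hnl
    linarith
  have hstep : ∀ k : ℕ, k + 1 ≤ W → 10 * ((n : ℝ) / L ^ W) ≤ n / L ^ k := by
    intro k hk
    rw [← mul_div_assoc, div_le_div_iff₀ (by positivity) (by positivity)]
    have h5 : 10 * L ^ k ≤ L ^ W := by
      calc 10 * L ^ k ≤ L * L ^ k := mul_le_mul_of_nonneg_right hL10 (by positivity)
        _ = L ^ (k + 1) := by ring
        _ ≤ L ^ W := hpow _ _ hk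
    nlinarith
  have hU := hstep U hWU
  -- sets with at least n / L ^ 3 elements meet X
  have h3 := hstep 3 (by omega)
  have hmeet : ∀ S ⊆ Icc 1 n, (n : ℝ) / L ^ 3 - 2 ≤ S.card → ∃ p ∈ X, p ∈ S := by
    intro S hSs hSc
    refine meets hSs ?_
    have : ((Icc 1 n \ X).card : ℝ) < S.card := by linarith
    exact_mod_cast this
  have hLL : ∀ δ : ℝ, 0 < δ → 2 / δ ≤ L → ∀ a ∈ Icc 1 n, (n : ℝ) / L ^ 3 ≤ δ * wt a * LL n := by
    intro δ hδ hδL a ha
    have hwt := wt_one_le (mem_Icc.1 ha).1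
    unfold LL
    rw [← hLd]
    have h5 : 1 ≤ δ * L := by
      rw [div_le_iff₀ hδ] at hδL
      linarith
    calc (n : ℝ) / L ^ 3 = 1 * (n / L ^ 3) := by ring
      _ ≤ (δ * L) * (n / L ^ 3) := mul_le_mul_of_nonneg_right h5 (by positivity)
      _ = δ * 1 * (n / L ^ 2) := by field_simp
      _ ≤ δ * wt a * (n / L ^ 2) := by gcongr
  have hodd : ∀ p : ℕ, p.Prime → p ≠ 2 → Odd p := fun p hp h2 => hp.odd_of_ne_two h2
  refine ⟨X, hXs, by linarith, ?_, hXp, ?_, fun a ha => ?_, fun a ha => ?_⟩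
  · obtain ⟨p, hp, -⟩ := hmeet (Icc 1 n) subset_rfl (by
      rw [Nat.card_Icc]
      have h5 : (n : ℝ) / L ^ 3 ≤ n := div_le_self hn0.le (one_le_pow₀ (by linarith))
      have h6 : ((n + 1 - 1 : ℕ) : ℝ) = n := by norm_num
      rw [h6]
      linarith)
    exact ⟨p, hp⟩
  · obtain ⟨p, hp, hp2⟩ := hmeet ((Icc 1 n).filter (fun p => p.Prime ∧ Odd p)) (filter_subset _ _) (by
      have h5 : ((Icc 1 n).filter (fun p => p.Prime)) ⊆ insert 2 ((Icc 1 n).filter (fun p => p.Prime ∧ Odd p)) := by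
        intro p hp
        rw [mem_filter] at hp
        rw [mem_insert, mem_filter]
        by_cases h6 : p = 2
        · exact Or.inl h6
        · exact Or.inr ⟨hp.1, hp.2, hodd p hp.2 h6⟩
      have h6 := (card_le_card h5).trans (card_insert_le _ _)
      have h7 : ((Icc 1 n).filter (fun p => p.Prime)).card = Nat.primeCounting n := by
        rw [Nat.primeCounting, Nat.primeCounting', Nat.count_eq_card_filter_range]
        congr 1
        ext p
        simp only [mem_filter, mem_Icc, mem_range]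
        constructor
        · rintro ⟨⟨h1, h2⟩, h3⟩
          exact ⟨by omega, h3⟩
        · rintro ⟨h1, h3⟩
          exact ⟨⟨h3.one_lt.le, by omega⟩, h3⟩
      have h8 := Chebyshev.pi_ge n
      rw [← h7] at h8
      have h9 : (((Icc 1 n).filter (fun p => p.Prime)).card : ℝ) ≤ ((Icc 1 n).filter (fun p => p.Prime ∧ Odd p)).card + 1 := by
        exact_mod_cast h6
      have hl2 : (0.69 : ℝ) < Real.log 2 := by
        have := Real.log_two_gt_d9
        linarith
      have h10 : Real.log ((n : ℝ) + 1) ≤ L + 1 := by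
        have h11 : (n : ℝ) + 1 ≤ n * 2 := by
          have : (10 : ℝ) ≤ n := by exact_mod_cast (show 10 ≤ n by omega)
          linarith
        have h12 := Real.log_le_log (by linarith) h11
        rw [Real.log_mul (by positivity) (by norm_num)] at h12
        have := Real.log_two_lt_d9
        linarith
      have h11 : (n : ℝ) / L ^ 3 ≤ (n * Real.log 2 - Real.log (n + 1)) / L := by
        rw [div_le_div_iff₀ (by positivity) hL0]
        have h12 : L ≤ n * (1 / 4) := by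
          have h13 : L ≤ L ^ W := by
            calc L = L ^ 1 := by ring
              _ ≤ L ^ W := hpow _ _ (by omega)
          rw [le_div_iff₀ (by positivity)] at h4
          linarith
        have h14 : (n : ℝ) * (1 / 100) ≤ n * Real.log 2 - Real.log (n + 1) := by
          have : (10 : ℝ) ≤ n := by exact_mod_cast (show 10 ≤ n by omega)
          nlinarith
        have h15 : (n : ℝ) * L ≤ n * (1 / 100) * L ^ 3 := by
          have h16 : 100 * L ≤ L ^ 3 := by nlinarith [mul_pos hL0 hL0, mul_self_nonneg (L - 10)]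
          nlinarith
        calc (n : ℝ) * L ≤ n * (1 / 100) * L ^ 3 := h15
          _ ≤ _ := mul_le_mul_of_nonneg_right h14 (by positivity)
      linarith)
    exact ⟨p, hp, (mem_filter.1 hp2).2⟩
  · obtain ⟨b, hb, hb2⟩ := hmeet ((Icc 1 n).filter (fun b => R2 n t₁ a b ∧ CD a b)) (filter_subset _ _) (by
      have h5 := hD n (by omega) a ha
      have h6 := hLL δ₁ hδ₁ hLd1 a ha
      have h7 : (n : ℝ) / L ^ 3 ≤ (((Icc 1 n).filter (fun b => R2 n t₁ a b ∧ CD a b)).card : ℝ) := by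
        refine h6.trans ?_
        convert h5
      linarith)
    rw [mem_filter] at hb2
    have hb1 := mem_Icc.1 hb2.1
    have ha1 := mem_Icc.1 ha
    refine ⟨b, hb, ?_, ⟨hb2.2.2.1, hb2.2.1.2.1⟩, hb2.2.1.1.1, semi_of_length (by omega) hb2.2.2.2⟩
    rintro rfl
    have := hb2.2.2.1
    rw [Nat.dist_self] at this
    exact Nat.not_prime_zero this
  · obtain ⟨b, hb, hb2⟩ := hmeet (((Icc 1 n).filter (fun b => R2 n t₂ a b ∧ CS a b)) \ {a - 1, a + 1})
      (sdiff_subset.trans (filter_subset _ _)) (by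
      have h5 := hS n (by omega) a ha
      have h6 := hLL δ₂ hδ₂ hLd2 a ha
      have h7 : (n : ℝ) / L ^ 3 ≤ (((Icc 1 n).filter (fun b => R2 n t₂ a b ∧ CS a b)).card : ℝ) := by
        refine h6.trans ?_
        convert h5
      have h8 : (((Icc 1 n).filter (fun b => R2 n t₂ a b ∧ CS a b)).card) ≤
          (((Icc 1 n).filter (fun b => R2 n t₂ a b ∧ CS a b)) \ {a - 1, a + 1}).card + ({a - 1, a + 1} : Finset ℕ).card := by
        have := card_le_card_sdiff_add_card (t := ({a - 1, a + 1} : Finset ℕ))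
          (s := ((Icc 1 n).filter (fun b => R2 n t₂ a b ∧ CS a b)))
        exact this
      have h9 : ({a - 1, a + 1} : Finset ℕ).card ≤ 2 := card_le_two
      have h10 : ((((Icc 1 n).filter (fun b => R2 n t₂ a b ∧ CS a b)).card : ℕ) : ℝ) ≤
          (((((Icc 1 n).filter (fun b => R2 n t₂ a b ∧ CS a b)) \ {a - 1, a + 1}).card : ℕ) : ℝ) + 2 := by
        exact_mod_cast h8.trans (by omega)
      linarith)
    rw [mem_sdiff, mem_filter] at hb2
    obtain ⟨⟨hb3, hb4⟩, hb5⟩ := hb2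
    have hb1 := mem_Icc.1 hb3
    have ha1 := mem_Icc.1 ha
    have hd1 : Nat.dist a b ≠ 1 := by
      intro h
      apply hb5
      rw [mem_insert, mem_singleton]
      simp only [Nat.dist] at h
      omega
    have hne : a ≠ b := by
      rintro rfl
      have h1 := hb4.1.2.1
      rw [Nat.dist_self] at h1
      exact absurd h1 (by decide)
    have hd0 : Nat.dist a b ≠ 0 := fun h => hne (Nat.eq_of_dist_eq_zero h)
    exact ⟨b, hb, hne, ⟨hb4.2.1, hb4.1.1.1⟩, hb4.1.2.1, semi_of_length (by omega) hb4.2.2⟩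

end Pool.Agent.E8helper28.GB
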