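import Pool.Agent.E8helper66.GB.Stm2

set_option autoImplicit false

/-!
# GB-23 (FIVE): the combinatorial end (helper28)
-/

namespace Pool.Agent.E8helper28.GB

open Finset
open Pool.Agent.R521.GG (R dg)
open Pool.Agent.E8helper66.GB (Same Path S_TWO S_BR S_LINK S_FIVE)

theorem R_symm {a b : ℕ} (h : R a b) : R b a := by
  unfold R at *
  rw [add_comm b a, Nat.dist_comm b a]
  exact h

theorem R_parity {a b : ℕ} (h : R a b) : a % 2 ≠ b % 2 := by
  have h1 := h.1.2
  rw [Nat.odd_iff] at h1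
  omega

theorem R_three {a b : ℕ} (ha : 1 ≤ a) (hb : 1 ≤ b) (h : R a b) (h3 : 3 ∣ a) : ¬ 3 ∣ b := by
  intro h4
  have h5 : 3 ∣ a + b := (Nat.dvd_add_right h3).2 h4
  have h6 := (Nat.prime_dvd_prime_iff_eq Nat.prime_three h.1.1).1 h5
  obtain ⟨k, rfl⟩ := h3
  obtain ⟨l, rfl⟩ := h4
  omega

theorem R_three' {a b : ℕ} (h : R a b) (h3 : ¬ 3 ∣ a) (h4 : ¬ 3 ∣ b) : b = 3 - a ∨ b = a + 3 ∨ b = a - 3 := by
  have h5 : 3 ∣ a + b ∨ 3 ∣ Nat.dist a b := by
    have h8 : a % 3 = 1 ∨ a % 3 = 2 := by omega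
    have h9 : b % 3 = 1 ∨ b % 3 = 2 := by omega
    have h10 : (a + b) % 3 = 0 ∨ a % 3 = b % 3 := by omega
    rcases h10 with h10 | h10
    · left
      exact Nat.dvd_of_mod_eq_zero h10
    · right
      rcases le_total a b with h6 | h6
      · rw [Nat.dist_eq_sub_of_le h6]
        exact (Nat.modEq_iff_dvd' h6).1 h10
      · rw [Nat.dist_eq_sub_of_le_right h6]
        exact (Nat.modEq_iff_dvd' h6).1 h10.symm
  rcases h5 with h5 | h5
  · have h6 := (Nat.prime_dvd_prime_iff_eq Nat.prime_three h.1.1).1 h5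
    omega
  · have h6 := (Nat.prime_dvd_prime_iff_eq Nat.prime_three h.2.1).1 h5
    rcases le_total a b with h7 | h7
    · rw [Nat.dist_eq_sub_of_le h7] at h6
      omega
    · rw [Nat.dist_eq_sub_of_le_right h7] at h6
      omega

/-- the neighbours in the class which is opposite to `a` -/
def NX (X : Finset ℕ) (a : ℕ) : Finset ℕ := X.filter (fun b => R a b ∧ (3 ∣ b ↔ ¬ 3 ∣ a))

theorem mem_NX {X : Finset ℕ} {a b : ℕ} : b ∈ NX X a ↔ b ∈ X ∧ R a b ∧ (3 ∣ b ↔ ¬ 3 ∣ a) := by
  unfold NX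
  rw [mem_filter]

theorem card_NX {X : Finset ℕ} {n : ℕ} (hX : X ⊆ Icc 1 n) {a : ℕ} (ha : 1 ≤ a) : dg X a ≤ (NX X a).card + 3 := by
  unfold dg NX
  have h1 : X.filter (fun b => R a b) ⊆ X.filter (fun b => R a b ∧ (3 ∣ b ↔ ¬ 3 ∣ a)) ∪ {3 - a, a + 3, a - 3} := by
    intro b hb
    rw [mem_filter] at hb
    have hb1 := (mem_Icc.1 (hX hb.1)).1
    rw [mem_union, mem_filter]
    by_cases h3 : 3 ∣ a
    · left
      refine ⟨hb.1, hb.2, ?_⟩
      have := R_three ha hb1 hb.2 h3
      tauto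
    · by_cases h4 : 3 ∣ b
      · left
        exact ⟨hb.1, hb.2, by tauto⟩
      · right
        have := R_three' hb.2 h3 h4
        simp only [mem_insert, mem_singleton]
        exact this
  refine (card_le_card h1).trans ((card_union_le _ _).trans ?_)
  have h2 : ({3 - a, a + 3, a - 3} : Finset ℕ).card ≤ 3 := card_le_three
  omega

theorem path_mono {X : Finset ℕ} : ∀ {r s : ℕ} {a b : ℕ}, r ≤ s → Path X r a b → Path X s a b := by
  intro r s a b hrs h
  induction hrs with
  | refl => exact h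
  | step _ ih => exact Or.inl ih

theorem path_one {X : Finset ℕ} {a b : ℕ} (hb : b ∈ X) (h : R a b) : Path X 1 a b := Or.inr ⟨b, hb, h, rfl⟩

theorem path_cons {X : Finset ℕ} {r a v b : ℕ} (hb : v ∈ X) (h : R a v) (h' : Path X r v b) : Path X (r + 1) a b :=
  Or.inr ⟨v, hb, h, h'⟩

theorem path_trans {X : Finset ℕ} : ∀ {r s : ℕ} {a b c : ℕ}, Path X r a b → Path X s b c → Path X (r + s) a c := by
  intro r
  induction r with
  | zero =>
    intro s a b c h1 h2
    have h3 : a = b := h1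
    rw [h3, Nat.zero_add]
    exact h2
  | succ r ih =>
    intro s a b c h1 h2
    have h0 : r + 1 + s = (r + s) + 1 := by ring
    rw [h0]
    rcases h1 with h1 | ⟨v, hv, h3, h4⟩
    · exact Or.inl (ih h1 h2)
    · exact Or.inr ⟨v, hv, h3, ih h4 h2⟩

theorem path_symm {X : Finset ℕ} : ∀ {r : ℕ} {a b : ℕ}, a ∈ X → Path X r a b → Path X r b a := by
  intro r
  induction r with
  | zero =>
    intro a b _ h
    exact (show a = b from h).symm
  | succ r ih =>
    intro a b ha h
    rcases h with h | ⟨v, hv, h3, h4⟩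
    · exact Or.inl (ih ha h)
    · exact path_trans (ih hv h4) (path_one ha (R_symm h3))

/-- the combinatorial part for given numbers -/
theorem five_core {X : Finset ℕ} {n : ℕ} {m : ℝ} (hX : X ⊆ Icc 1 n) (hm : 0 < m)
    (h2 : ∀ a ∈ X, ∀ S ⊆ Icc 1 n, (∀ x ∈ S, Same a x) → m ≤ S.card → ∃ x ∈ S, ∃ b ∈ X, R a b ∧ R x b)
    (hN : ∀ a ∈ X, m ≤ ((NX X a).card : ℝ))
    (hB : ∀ a ∈ X, 3 ∣ a → m ≤ ((X.filter (fun b => b + 3 ∈ X ∧ R a b ∧ (2 * b + 3).Prime)).card : ℝ)) :
    ∀ a ∈ X, ∀ c ∈ X, Path X 5 a c := by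
  have hpos : ∀ a ∈ X, 1 ≤ a := fun a ha => (mem_Icc.1 (hX ha)).1
  have hne : ∀ a ∈ X, ∃ u, u ∈ NX X a := by
    intro a ha
    have h1 := hm.trans_le (hN a ha)
    exact card_pos.1 (by exact_mod_cast h1)
  have hsub : ∀ a, NX X a ⊆ Icc 1 n := fun a b hb => hX (mem_NX.1 hb).1
  -- case (i)
  have hi : ∀ a ∈ X, ∀ c ∈ X, Same a c → Path X 4 a c := by
    intro a ha c hc hac
    obtain ⟨u, hu⟩ := hne a ha
    have hu' := mem_NX.1 hu
    have hpu := R_parity hu'.2.1
    obtain ⟨x, hx, b, hb, hub, hxb⟩ := h2 u hu'.1 (NX X c) (hsub c) (by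
      intro x hx
      have hx' := mem_NX.1 hx
      have hpx := R_parity hx'.2.1
      have h5 := hac.1
      refine ⟨by omega, ?_⟩
      rw [hu'.2.2, hx'.2.2, hac.2]) (hN c hc)
    have hx' := mem_NX.1 hx
    exact path_cons hu'.1 hu'.2.1 (path_cons hb hub (path_cons hx'.1 (R_symm hxb) (path_one hc (R_symm hx'.2.1))))
  -- case (ii)
  have hii : ∀ a ∈ X, ∀ c ∈ X, a % 2 ≠ c % 2 → (3 ∣ a ↔ ¬ 3 ∣ c) → Path X 3 a c := by
    intro a ha c hc hac1 hac2
    obtain ⟨x, hx, b, hb, hub, hxb⟩ := h2 a ha (NX X c) (hsub c) (by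
      intro x hx
      have hx' := mem_NX.1 hx
      have hpx := R_parity hx'.2.1
      refine ⟨by omega, ?_⟩
      rw [hx'.2.2, hac2]) (hN c hc)
    have hx' := mem_NX.1 hx
    exact path_cons hb hub (path_cons hx'.1 (R_symm hxb) (path_one hc (R_symm hx'.2.1)))
  -- case (iv)
  have hiv : ∀ a ∈ X, ∀ c ∈ X, a % 2 = c % 2 → 3 ∣ a → ¬ 3 ∣ c → Path X 4 a c := by
    intro a ha c hc hpar h3a h3c
    obtain ⟨x, hx, w, hw, hcw, hxw⟩ := h2 c hc
      ((X.filter (fun b => b + 3 ∈ X ∧ R a b ∧ (2 * b + 3).Prime)).image (fun b => b + 3)) (by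
        intro y hy
        rw [mem_image] at hy
        obtain ⟨b, hb, rfl⟩ := hy
        rw [mem_filter] at hb
        exact hX hb.2.1) (by
        intro y hy
        rw [mem_image] at hy
        obtain ⟨b, hb, rfl⟩ := hy
        rw [mem_filter] at hb
        have h6 := R_three (hpos a ha) (hpos b hb.1) hb.2.2.1 h3a
        have h7 := R_parity hb.2.2.1
        refine ⟨by omega, ?_⟩
        constructor
        · intro h8
          exact absurd h8 h3c
        · intro h8
          exact absurd ((Nat.dvd_add_left (dvd_refl 3)).1 h8) h6) (by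
        rw [card_image_of_injective _ (add_left_injective 3)]
        exact hB a ha h3a)
    rw [mem_image] at hx
    obtain ⟨b, hb, rfl⟩ := hx
    rw [mem_filter] at hb
    have hR : R b (b + 3) := by
      have h8 : b + (b + 3) = 2 * b + 3 := by ring
      have h9 : Nat.dist b (b + 3) = 3 := by
        rw [Nat.dist_eq_sub_of_le (by omega)]
        omega
      unfold R
      rw [h8, h9]
      exact ⟨⟨hb.2.2.2, ⟨b + 1, by ring⟩⟩, Nat.prime_three, by decide⟩
    exact path_cons hb.1 hb.2.2.1 (path_cons hb.2.1 hR (path_cons hw hxw (path_one hc (R_symm hcw))))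
  intro a ha c hc
  by_cases hpar : a % 2 = c % 2
  · by_cases h3a : 3 ∣ a
    · by_cases h3c : 3 ∣ c
      · exact path_mono (by norm_num) (hi a ha c hc ⟨hpar, by tauto⟩)
      · exact path_mono (by norm_num) (hiv a ha c hc hpar h3a h3c)
    · by_cases h3c : 3 ∣ c
      · exact path_mono (by norm_num) (path_symm hc (hiv c hc a ha hpar.symm h3c h3a))
      · exact path_mono (by norm_num) (hi a ha c hc ⟨hpar, by tauto⟩)
  · by_cases h3a : 3 ∣ a
    · by_cases h3c : 3 ∣ c
      · obtain ⟨v, hv⟩ := hne c hc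
        have hv' := mem_NX.1 hv
        have hpv := R_parity hv'.2.1
        have h3v := R_three (hpos c hc) (hpos v hv'.1) hv'.2.1 h3c
        exact path_trans (hiv a ha v hv'.1 (by omega) h3a h3v) (path_one hc (R_symm hv'.2.1))
      · exact path_mono (by norm_num) (hii a ha c hc hpar (by tauto))
    · by_cases h3c : 3 ∣ c
      · exact path_mono (by norm_num) (hii a ha c hc hpar (by tauto))
      · obtain ⟨u, hu⟩ := hne a ha
        have hu' := mem_NX.1 hu
        have hpu := R_parity hu'.2.1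
        have h3u : 3 ∣ u := hu'.2.2.2 h3a
        exact path_cons hu'.1 hu'.2.1 (hiv u hu'.1 c hc (by omega) h3u h3c)

theorem t_FIVE (h1 : S_TWO) (h2 : S_BR) : S_FIVE := by
  intro U
  obtain ⟨n₁, hn₁⟩ := h1 (max U 10 + 2)
  obtain ⟨n₂, hn₂⟩ := h2 (max U 10 + 2)
  have hlog : Filter.Tendsto (fun n : ℕ => Real.log n) Filter.atTop Filter.atTop :=
    Real.tendsto_log_atTop.comp tendsto_natCast_atTop_atTop
  have ht : Filter.Tendsto (fun n : ℕ => Real.log n ^ 3 / (n : ℝ)) Filter.atTop (nhds 0) := by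
    have h3 := Real.isLittleO_pow_log_id_atTop (n := 3)
    have h4 := h3.tendsto_div_nhds_zero.comp tendsto_natCast_atTop_atTop
    exact h4
  obtain ⟨n₃, hn₃⟩ := Filter.eventually_atTop.1 ((hlog.eventually (Filter.eventually_ge_atTop 2)).and
    (ht.eventually (gt_mem_nhds (show (0 : ℝ) < 1 / 6 by norm_num))))
  refine ⟨max (max n₁ n₂) (max n₃ 1), fun n hn => ?_⟩
  have hna : n₁ ≤ n := (le_max_left _ _).trans ((le_max_left _ _).trans hn)
  have hnb : n₂ ≤ n := (le_max_right _ _).trans ((le_max_left _ _).trans hn)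
  have hnc : n₃ ≤ n := (le_max_left _ _).trans ((le_max_right _ _).trans hn)
  have hnd : 1 ≤ n := (le_max_right _ _).trans ((le_max_right _ _).trans hn)
  obtain ⟨hL, hL3⟩ := hn₃ n hnc
  obtain ⟨E1, hE1, hE1c, hE1p⟩ := hn₁ n hna
  obtain ⟨E2, hE2, hE2c, hE2p⟩ := hn₂ n hnb
  set L := Real.log n with hLdef
  have hn0 : (0 : ℝ) < n := by exact_mod_cast hnd
  have hL0 : 0 < L := by linarith
  set V := max U 10 + 2 with hV
  have hVU : U + 2 ≤ V := by
    have := le_max_left U 10
    omega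
  have hV12 : 12 ≤ V := by
    have := le_max_right U 10
    omega
  have hpow : ∀ k l : ℕ, k ≤ l → L ^ k ≤ L ^ l := fun k l hkl => pow_le_pow_right₀ (by linarith) hkl
  have hmpos : 0 < (n : ℝ) / L ^ V := by positivity
  -- 4 n / L ^ V ≤ n / L ^ k for k + 2 ≤ V
  have hfour : ∀ k : ℕ, k + 2 ≤ V → 4 * (n / L ^ V) ≤ (n : ℝ) / L ^ k := by
    intro k hk
    have h5 : 4 * L ^ k ≤ L ^ V := by
      calc 4 * L ^ k ≤ L ^ 2 * L ^ k := by
            refine mul_le_mul_of_nonneg_right ?_ (by positivity)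
            nlinarith
        _ = L ^ (k + 2) := by ring
        _ ≤ L ^ V := hpow _ _ hk
    rw [← mul_div_assoc, div_le_div_iff₀ (by positivity) (by positivity)]
    nlinarith
  refine ⟨E1 ∪ E2, union_subset hE1 hE2, ?_, ?_⟩
  · have h5 : ((E1 ∪ E2).card : ℝ) ≤ E1.card + E2.card := by exact_mod_cast card_union_le _ _
    have h6 := hfour U hVU
    linarith
  · intro X hX hdis hXc hdeg
    have hXc5 : ((Icc 1 n \ X).card : ℝ) ≤ n / L ^ 5 := by
      refine hXc.trans ?_
      exact div_le_div_of_nonneg_left hn0.le (by positivity) (hpow 5 6 (by norm_num))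
    refine five_core hX hmpos (fun a ha S hS hSc hSm => ?_) (fun a ha => ?_) (fun a ha h3a => ?_)
    · refine hE1p X hX hXc5 a (hX ha) ?_ S hS hSc hSm
      intro h7
      exact (disjoint_left.1 hdis ha) (mem_union_left _ h7)
    · have h7 := hdeg a ha
      have h8 : (dg X a : ℝ) ≤ (NX X a).card + 3 := by
        exact_mod_cast card_NX hX (mem_Icc.1 (hX ha)).1
      have h9 := hfour 3 (by omega)
      have h10 : 6 ≤ (n : ℝ) / L ^ 3 := by
        rw [le_div_iff₀ (by positivity)]
        rw [div_lt_div_iff₀ hn0 (by norm_num)] at hL3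
        linarith
      linarith
    · have h7 := hE2p a (hX ha) (fun h => (disjoint_left.1 hdis ha) (mem_union_right _ h)) h3a
      have h8 : ((Icc 1 n).filter (fun b => b + 3 ≤ n ∧ R a b ∧ (2 * b + 3).Prime)) ⊆
          (X.filter (fun b => b + 3 ∈ X ∧ R a b ∧ (2 * b + 3).Prime)) ∪ ((Icc 1 n \ X) ∪
            ((Icc 1 n \ X).image (fun y => y - 3))) := by
        intro b hb
        rw [mem_filter] at hb
        rw [mem_union, mem_union, mem_filter]
        by_cases h9 : b ∈ X
        · by_cases h10 : b + 3 ∈ X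
          · left
            exact ⟨h9, h10, hb.2.2⟩
          · right
            right
            rw [mem_image]
            refine ⟨b + 3, ?_, by omega⟩
            rw [mem_sdiff, mem_Icc]
            exact ⟨⟨by omega, hb.2.1⟩, h10⟩
        · right
          left
          rw [mem_sdiff]
          exact ⟨hb.1, h9⟩
      have h9 : ((((Icc 1 n).filter (fun b => b + 3 ≤ n ∧ R a b ∧ (2 * b + 3).Prime)).card : ℕ) : ℝ) ≤
          ((X.filter (fun b => b + 3 ∈ X ∧ R a b ∧ (2 * b + 3).Prime)).card : ℝ) + (((Icc 1 n \ X).card : ℝ) +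
            ((Icc 1 n \ X).card : ℝ)) := by
        have h10 := (card_le_card h8).trans ((card_union_le _ _).trans
          (add_le_add le_rfl ((card_union_le _ _).trans (add_le_add le_rfl card_image_le))))
        exact_mod_cast h10
      have h10 : 4 * ((n : ℝ) / L ^ 6) ≤ n / L ^ 4 := by
        rw [← mul_div_assoc, div_le_div_iff₀ (by positivity) (by positivity)]
        have h11 : 4 * L ^ 4 ≤ L ^ 6 := by
          calc 4 * L ^ 4 ≤ L ^ 2 * L ^ 4 := by
                refine mul_le_mul_of_nonneg_right ?_ (by positivity)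
                nlinarith
            _ = L ^ 6 := by ring
        nlinarith
      have h11 := hfour 4 (by omega)
      linarith

end Pool.Agent.E8helper28.GB
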