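import Pool.Agent.E8helper66.GB.Stm

set_option autoImplicit false

/-!
# Project GB, the end of the proof: diameter exactly five (helper28)

Exact statements of the pieces `ESTG`, `LOC3`, `PAIR`, `LNK`, `FIVE`, `LOW`, `CHEN7`.
The vertex `2 a` is represented by `a`.
-/

namespace Pool.Agent.E8helper28.GB

open Finset
open Pool.Agent.H373R2.T7 (lamz pz Vz)
open Pool.Agent.R521.GG (R dg)
open Pool.Agent.E8helper66.GB (KL KZ Same Path)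

/-- the one-sided difference of `Λ` and the sieve model, on the integers -/
noncomputable def Dp (z : ℕ) (x : ℤ) : ℝ :=
  if 1 ≤ x then ArithmeticFunction.vonMangoldt x.toNat - lamz z x.toNat else 0

/-- ESTG: the general form of `S_EST`, one of the two functions is arbitrary -/
def S_ESTG : Prop := ∀ U : ℕ, ∃ B : ℕ, ∀ K : ℕ, ∃ n₀ : ℕ, ∀ n : ℕ, n₀ ≤ n → ∀ z : ℕ, Real.log n ^ B ≤ z →
  (z : ℝ) ≤ Real.log n ^ K → ∀ A ⊆ Icc 1 n, ∀ B' ⊆ Icc 1 n, ∀ P : ℤ → ℝ, (∀ x, |P x| ≤ Real.log n ^ 2) →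
  |∑ a ∈ A, ∑ b ∈ B', P ((a : ℤ) + b) * Dp z ((a : ℤ) - b)| ≤ (n : ℝ) ^ 2 / Real.log n ^ U ∧
  |∑ a ∈ A, ∑ b ∈ B', Dp z ((a : ℤ) + b) * P ((a : ℤ) - b)| ≤ (n : ℝ) ^ 2 / Real.log n ^ U

/-- LOC3: the local densities for the links -/
def S_LOC3 : Prop := ∃ c₀ : ℝ, 0 < c₀ ∧ ∀ K : ℕ, ∃ n₀ : ℕ, ∀ n : ℕ, n₀ ≤ n → ∀ z : ℕ, 1 ≤ z → (z : ℝ) ≤ Real.log n ^ K →
  ∀ a ∈ Icc 1 n, 3 ∣ a → c₀ * n ≤ ∑ x ∈ Icc 1 n, KZ z a x * lamz z (2 * x + 3)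

open Classical in
/-- PAIR: almost all pairs of the same class have many common neighbours (from `S_EST`, `S_LOC`) -/
def S_PAIR : Prop := ∀ U : ℕ, ∃ n₀ : ℕ, ∀ n : ℕ, n₀ ≤ n →
  (((Icc 1 n ×ˢ Icc 1 n).filter (fun p => Same p.1 p.2 ∧
    ¬ ((n : ℝ) / Real.log n ^ 5 ≤ (((Icc 1 n).filter (fun b => R p.1 b ∧ R p.2 b)).card : ℝ)))).card : ℝ) ≤
    (n : ℝ) ^ 2 / Real.log n ^ U

open Classical in
/-- LNK: almost all multiples of three have many neighbours `x` such that `x`, `x + 3` are adjacent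
(from `S_EST`, `S_ESTG`, `S_LOC3`) -/
def S_LNK : Prop := ∀ U : ℕ, ∃ n₀ : ℕ, ∀ n : ℕ, n₀ ≤ n →
  (((Icc 1 n).filter (fun a => 3 ∣ a ∧
    ¬ ((n : ℝ) / Real.log n ^ 5 ≤ (((Icc 1 n).filter (fun x => R a x ∧ (2 * x + 3).Prime)).card : ℝ)))).card : ℝ) ≤
    n / Real.log n ^ U

/-- FIVE: one component of diameter at most five (from `S_PAIR`, `S_LNK`) -/
def S_FIVE : Prop := ∀ U : ℕ, ∃ n₀ : ℕ, ∀ n : ℕ, n₀ ≤ n → ∃ X ⊆ Icc 1 n, ((Icc 1 n \ X).card : ℝ) ≤ n / Real.log n ^ U ∧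
  (∀ a ∈ X, ∀ c ∈ X, Path X 5 a c) ∧ ∀ a ∈ X, (n : ℝ) / Real.log n ^ 6 ≤ (dg X a : ℝ)

/-- adjacency of `2 a` and `2 b` in the near Goldbach graph -/
def RN (a b : ℕ) : Prop := a ≠ b ∧ (a + b = 1 ∨ ((a + b).Prime ∧ Odd (a + b))) ∧
  (Nat.dist a b = 1 ∨ ((Nat.dist a b).Prime ∧ Odd (Nat.dist a b)))

/-- a path of length exactly `r` in the near Goldbach graph (vertices at least one) -/
def NPath : ℕ → ℕ → ℕ → Prop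
  | 0, a, b => a = b
  | r + 1, a, b => ∃ v, 1 ≤ v ∧ RN a v ∧ NPath r v b

/-- LOW: the lower bound for the diameter -/
def S_LOW : Prop := ∀ U : ℕ, 1 ≤ U → ∃ n₀ : ℕ, ∀ n : ℕ, n₀ ≤ n → ∀ X ⊆ Icc 1 n,
  ((Icc 1 n \ X).card : ℝ) ≤ n / Real.log n ^ U → ∃ a ∈ X, ∃ c ∈ X, ∀ r ≤ 4, ¬ NPath r a c

end Pool.Agent.E8helper28.GB
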