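import Pool.Agent.E8helper28.GB.Chen7

set_option autoImplicit false

/-!
# The large set of diameter five (helper28)
-/

namespace Pool.Agent.E8helper28.GB

open Finset
open Pool.Agent.R521.GG (R dg)
open Pool.Agent.E8helper66.GB (Path S_FIVE)

theorem x5_of (hF : S_FIVE) (hM : ∃ c : ℝ, 0 < c ∧ ∀ U : ℕ, ∃ n₀ : ℕ, ∀ n : ℕ, n₀ ≤ n → ∃ X ⊆ Icc 1 n,
      ((Icc 1 n \ X).card : ℝ) ≤ n / Real.log n ^ U ∧ (∀ a ∈ X, c * (n / Real.log n ^ 2) ≤ dg X a)) : S_X5 := by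
  classical
  obtain ⟨c, hc0, hmain⟩ := hM
  intro U
  obtain ⟨n₁, h1⟩ := hmain (U + 8)
  obtain ⟨n₂, h2⟩ := hF (U + 8)
  have hlog : Filter.Tendsto (fun n : ℕ => Real.log n) Filter.atTop Filter.atTop :=
    Real.tendsto_log_atTop.comp tendsto_natCast_atTop_atTop
  obtain ⟨n₃, h3⟩ := Filter.eventually_atTop.1 (hlog.eventually_ge_atTop (max 2 (2 / c)))
  refine ⟨n₁ + n₂ + n₃ + 1, fun n hn => ?_⟩
  obtain ⟨X₀, hX₀, hX₀c, hX₀d⟩ := h1 n (by omega)
  obtain ⟨E, hE, hEc, hEp⟩ := h2 n (by omega)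
  have a3 := h3 n (by omega)
  set L := Real.log n with hLd
  have hL2 : 2 ≤ L := (le_max_left _ _).trans a3
  have hLc : 2 / c ≤ L := (le_max_right _ _).trans a3
  have hL0 : 0 < L := by linarith
  have hn0 : (0 : ℝ) < n := by exact_mod_cast (by omega : 0 < n)
  have hpow : ∀ k l : ℕ, k ≤ l → L ^ k ≤ L ^ l := fun k l hkl => pow_le_pow_right₀ (by linarith) hkl
  -- 2 n / L ^ (U + 8) ≤ n / L ^ k
  have hV : ∀ k : ℕ, k ≤ U + 7 → 2 * ((n : ℝ) / L ^ (U + 8)) ≤ n / L ^ k := by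
    intro k hk
    rw [← mul_div_assoc, div_le_div_iff₀ (by positivity) (by positivity)]
    have h5 : 2 * L ^ k ≤ L ^ (U + 8) := by
      calc 2 * L ^ k ≤ L * L ^ k := mul_le_mul_of_nonneg_right hL2 (by positivity)
        _ = L ^ (k + 1) := by ring
        _ ≤ L ^ (U + 8) := hpow _ _ (by omega)
    nlinarith
  have hXI : X₀ \ E ⊆ Icc 1 n := sdiff_subset.trans hX₀
  have hcd : ((Icc 1 n \ (X₀ \ E)).card : ℝ) ≤ 2 * (n / L ^ (U + 8)) := by
    have e1 : Icc 1 n \ (X₀ \ E) ⊆ (Icc 1 n \ X₀) ∪ E := by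
      intro x hx
      rw [mem_sdiff, mem_sdiff] at hx
      rw [mem_union, mem_sdiff]
      tauto
    have e2 := (card_le_card e1).trans (card_union_le _ _)
    have e3 : ((Icc 1 n \ (X₀ \ E)).card : ℝ) ≤ (Icc 1 n \ X₀).card + E.card := by exact_mod_cast e2
    linarith
  have hdeg3 : ∀ a ∈ X₀ \ E, (n : ℝ) / L ^ 3 ≤ dg (X₀ \ E) a := by
    intro a ha
    rw [mem_sdiff] at ha
    have e1 := hX₀d a ha.1
    have e2 : X₀.filter (fun b => R a b) ⊆ ((X₀ \ E).filter (fun b => R a b)) ∪ E := by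
      intro x hx
      rw [mem_filter] at hx
      rw [mem_union, mem_filter, mem_sdiff]
      tauto
    have e3 := (card_le_card e2).trans (card_union_le _ _)
    have e4 : (dg X₀ a : ℝ) ≤ dg (X₀ \ E) a + E.card := by
      unfold dg
      exact_mod_cast e3
    have e5 := hV 3 (by omega)
    have e6 : 0 ≤ (n : ℝ) / L ^ (U + 8) := by positivity
    have e7 : 2 * ((n : ℝ) / L ^ 3) ≤ c * (n / L ^ 2) := by
      have e8 : (n : ℝ) / L ^ 3 = (1 / L) * (n / L ^ 2) := by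
        field_simp
      have e9 : 2 * (1 / L) ≤ c := by
        rw [div_le_iff₀ hc0] at hLc
        rw [mul_one_div, div_le_iff₀ hL0]
        linarith
      rw [e8, ← mul_assoc]
      exact mul_le_mul_of_nonneg_right e9 (by positivity)
    linarith
  refine ⟨X₀ \ E, hXI, hcd.trans (hV U (by omega)), ?_⟩
  exact hEp (X₀ \ E) hXI sdiff_disjoint (hcd.trans (hV 6 (by omega))) hdeg3

end Pool.Agent.E8helper28.GB
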